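import Pool.Agent.Helper800_Enc.Cover

/-!
# Uniform Turán density of `K_4^(3)`: 3-graphs encoded by a graph

A 3-graph is encoded by a graph `G` on its vertices and a rule `R ⊆ {0, 1, 2, 3}` when a triple is a
hyperedge if and only if the number of edges of `G` inside the triple belongs to `R`.

Every `(d, η, ∴)`-dense `K_4^(3)`-free 3-graph on at least 16 vertices which is encoded by a graph
has `d ≤ 1/2 + η`; so the conjectured bound `1/2` holds in this class. It follows from the exact
maximum `∑_{i < n} ⌊i² / 4⌋` of the number of hyperedges in the class.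
-/

set_option autoImplicit false
open Finset
open scoped Classical

namespace Pool.Agent.Results.MP_59bda2_co.GraphEncodedUniform

/-- The number of edges of the graph `G` between elements of `s` (two-element subsets of `s` which
are edges). -/
noncomputable def edgesIn {n : ℕ} (G : SimpleGraph (Fin n)) (s : Finset (Fin n)) : ℕ :=
  ((s.powersetCard 2).filter fun p => ∃ x ∈ p, ∃ y ∈ p, G.Adj x y).card

/-- The 3-graph encoded by `G` with the rule `R`: a triple is a hyperedge if the number of edges of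
`G` inside it belongs to `R`. -/
noncomputable def encoded {n : ℕ} (G : SimpleGraph (Fin n)) (R : Finset ℕ) :
    Finset (Finset (Fin n)) :=
  (univ.powersetCard 3).filter fun s => edgesIn G s ∈ R

/-- `H` has no four vertices spanning all four triples. -/
def K43Free {n : ℕ} (H : Finset (Finset (Fin n))) : Prop :=
  ∀ S : Finset (Fin n), S.card = 4 → ∃ s ⊆ S, s.card = 3 ∧ s ∉ H

/-- `H` is `(d, η, ∴)`-dense: for all vertex sets `X, Y, Z` at least `d |X| |Y| |Z| - η n³` ordered
triples `(x, y, z) ∈ X × Y × Z` have `{x, y, z} ∈ H`. -/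
def UniformlyDense {n : ℕ} (d η : ℝ) (H : Finset (Finset (Fin n))) : Prop :=
  ∀ X Y Z : Finset (Fin n),
    d * (X.card * Y.card * Z.card) - η * (n : ℝ) ^ 3 ≤
      (((X ×ˢ Y ×ˢ Z).filter fun p => ({p.1, p.2.1, p.2.2} : Finset (Fin n)) ∈ H).card : ℝ)

theorem sum_le (n : ℕ) : 12 * ∑ i ∈ range n, i ^ 2 / 4 ≤ n ^ 3 := by
  have h := Helper800Enc.closed n
  rcases n with _ | m
  · simp
  · have e1 : m + 1 - 1 = m := by omega
    have e2 : 2 * (m + 1) - 1 = 2 * m + 1 := by omega
    rw [e1, e2] at h
    nlinarith [h, Nat.zero_le m, Nat.zero_le (m ^ 2), Nat.zero_le (m ^ 3),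
      Nat.zero_le ((m + 1) / 2)]

/-- **Uniform Turán density of `K_4^(3)` for 3-graphs encoded by a graph.** If a 3-graph on
`n ≥ 16` vertices is encoded by a graph, `K_4^(3)`-free and `(d, η, ∴)`-dense, then
`d ≤ 1/2 + η`. -/
theorem result (n : ℕ) (hn : 16 ≤ n) (G : SimpleGraph (Fin n)) (R : Finset ℕ)
    (hfree : K43Free (encoded G R)) (d η : ℝ) (hd : UniformlyDense d η (encoded G R)) :
    d ≤ 1 / 2 + η := by
  have h1 : (encoded G R).card ≤ ∑ i ∈ range n, i ^ 2 / 4 := Helper800Enc.upper G R hn hfree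
  have h2 := hd univ univ univ
  have h3 : ((univ ×ˢ univ ×ˢ univ : Finset (Fin n × Fin n × Fin n)).filter
      fun p => ({p.1, p.2.1, p.2.2} : Finset (Fin n)) ∈ encoded G R).card ≤
      6 * (encoded G R).card := by
    have h6 := Pool.Agent.R79.EG.six_mul (encoded G R)
      (fun s hs => Helper800Enc.encoded_card3 (G := G) (R := R) s hs)
    rw [← h6]
    refine card_le_card ?_
    intro p hp
    rw [mem_filter] at hp
    rw [Pool.Agent.R79.EG.mem_oT]
    have hc : ({p.1, p.2.1, p.2.2} : Finset (Fin n)).card = 3 :=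
      Helper800Enc.encoded_card3 (G := G) (R := R) _ hp.2
    refine ⟨?_, ?_, ?_, hp.2⟩
    · intro h
      rw [h, insert_eq_of_mem (mem_insert_self _ _)] at hc
      have := card_le_two (a := p.2.1) (b := p.2.2)
      omega
    · intro h
      rw [h, insert_eq_of_mem (by simp : p.2.2 ∈ ({p.2.1, p.2.2} : Finset (Fin n)))] at hc
      have := card_le_two (a := p.2.1) (b := p.2.2)
      omega
    · intro h
      rw [h, pair_eq_singleton] at hc
      have := card_le_two (a := p.1) (b := p.2.2)
      omega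
  have h4 := sum_le n
  have h5 : 2 * ((univ ×ˢ univ ×ˢ univ : Finset (Fin n × Fin n × Fin n)).filter
      fun p => ({p.1, p.2.1, p.2.2} : Finset (Fin n)) ∈ encoded G R).card ≤ n ^ 3 := by omega
  have h6 : (2 : ℝ) * (((univ ×ˢ univ ×ˢ univ : Finset (Fin n × Fin n × Fin n)).filter
      fun p => ({p.1, p.2.1, p.2.2} : Finset (Fin n)) ∈ encoded G R).card : ℝ) ≤ (n : ℝ) ^ 3 := by
    exact_mod_cast h5
  rw [card_univ, Fintype.card_fin] at h2
  have hn0 : (0 : ℝ) < (n : ℝ) ^ 3 := by
    have : (0 : ℝ) < n := by exact_mod_cast (by omega : 0 < n)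
    positivity
  have h7 : (d - η) * (n : ℝ) ^ 3 ≤ (1 / 2) * (n : ℝ) ^ 3 := by nlinarith [h2, h6]
  have h8 := le_of_mul_le_mul_right h7 hn0
  linarith

end Pool.Agent.Results.MP_59bda2_co.GraphEncodedUniform
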